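import Mathlib
import Pool.Agent.Helper954.Hopf.D1c

/-!
Equivariant maps from the join of copies of `ZMod p` to sums of the regular representation hit the
diagonal; application to coloured pairs across a common cut.
-/

set_option autoImplicit false

namespace Pool.Agent.H892Z.NonSep

open Set Filter Topology
open Pool.Agent.Helper954.Hopf.Dold
open Pool.Agent.Helper954.Hopf.Dold.D1c (join_cover)

/-- `S` is a set of strictly largest coordinates of `y` -/
def IsTop {p : ℕ} (y : ZMod p → ℝ) (S : Finset (ZMod p)) : Prop :=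
  ∀ l ∈ S, ∀ l', l' ∉ S → y l' < y l

theorem top_unique {p : ℕ} {y : ZMod p → ℝ} {S S' : Finset (ZMod p)} (h1 : IsTop y S)
    (h2 : IsTop y S') (hc : S.card = S'.card) : S = S' := by
  classical
  by_contra hne
  have hA : ∃ l ∈ S, l ∉ S' := by
    by_contra h
    push Not at h
    exact hne (Finset.eq_of_subset_of_card_le h hc.ge)
  have hB : ∃ l ∈ S', l ∉ S := by
    by_contra h
    push Not at h
    exact hne (Finset.eq_of_subset_of_card_le h hc.le).symm
  obtain ⟨l, hl, hl'⟩ := hA
  obtain ⟨m, hm, hm'⟩ := hB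
  exact lt_asymm (h1 l hl m hm') (h2 m hm l hl')

theorem equi_const (p : ℕ) [Fact p.Prime] (M : ℕ) {D : Type} [Fintype D]
    (hD : Fintype.card D * (p - 1) < M) (F : D → VV p M → ZMod p → ℝ)
    (hF : ∀ d l, Continuous fun x => F d x l)
    (heq : ∀ d x l, F d (sh x) l = F d x (l - 1)) :
    ∃ x ∈ JK p M, ∀ d l l', F d x l = F d x l' := by
  classical
  have hp : p.Prime := Fact.out
  let O : D × Fin (p - 1) → Set (VV p M) := fun q =>
    {x | ∃ S : Finset (ZMod p), S.card = q.2.val + 1 ∧ IsTop (F q.1 x) S}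
  let lab : D × Fin (p - 1) → VV p M → ZMod p := fun q x =>
    if h : x ∈ O q then (∑ l ∈ Classical.choose h, l) / ((q.2.val + 1 : ℕ) : ZMod p) else 0
  have hlab : ∀ q x (S : Finset (ZMod p)), S.card = q.2.val + 1 → IsTop (F q.1 x) S →
      lab q x = (∑ l ∈ S, l) / ((q.2.val + 1 : ℕ) : ZMod p) := by
    intro q x S h1 h2
    have h : x ∈ O q := ⟨S, h1, h2⟩
    have h3 := Classical.choose_spec h
    show (if h : x ∈ O q then (∑ l ∈ Classical.choose h, l) / ((q.2.val + 1 : ℕ) : ZMod p)
      else 0) = _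
    rw [dif_pos h, top_unique h3.2 h2 (h3.1.trans h1.symm)]
  have hev : ∀ d x (S : Finset (ZMod p)), IsTop (F d x) S → ∀ᶠ y in 𝓝 x, IsTop (F d y) S := by
    intro d x S h
    have : ∀ l l' : ZMod p, ∀ᶠ y in 𝓝 x, l ∈ S → l' ∉ S → F d y l' < F d y l := by
      intro l l'
      by_cases h1 : l ∈ S
      · by_cases h2 : l' ∈ S
        · exact Eventually.of_forall fun y _ h3 => absurd h2 h3
        · have h3 := h l h1 l' h2
          have h4 : ∀ᶠ y in 𝓝 x, F d y l' < F d y l :=
            (hF d l').continuousAt.eventually_lt (hF d l).continuousAt h3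
          exact h4.mono fun y hy _ _ => hy
      · exact Eventually.of_forall fun y h3 => absurd h3 h1
    have h5 : ∀ᶠ y in 𝓝 x, ∀ l l' : ZMod p, l ∈ S → l' ∉ S → F d y l' < F d y l :=
      eventually_all.2 fun l => eventually_all.2 fun l' => this l l'
    exact h5.mono fun y hy l hl l' hl' => hy l l' hl hl'
  have hshift : ∀ d x (S : Finset (ZMod p)), IsTop (F d x) S →
      IsTop (F d (sh x)) (S.map (Equiv.addRight (1 : ZMod p)).toEmbedding) := by
    intro d x S h l hl l' hl'
    rw [heq, heq]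
    rw [Finset.mem_map_equiv] at hl hl'
    exact h (l - 1) (by simpa [sub_eq_add_neg] using hl) (l' - 1)
      (by simpa [sub_eq_add_neg] using hl')
  obtain ⟨x, hx, hxO⟩ := join_cover p M (J := D × Fin (p - 1)) (by simpa using hD) O
    (fun q => by
      rw [isOpen_iff_mem_nhds]
      rintro x ⟨S, h1, h2⟩
      exact (hev q.1 x S h2).mono fun y hy => ⟨S, h1, hy⟩)
    lab
    (fun q x hx => by
      obtain ⟨S, h1, h2⟩ := hx
      refine (hev q.1 x S h2).mono fun y hy => ?_
      rw [hlab q y S h1 hy, hlab q x S h1 h2])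
    (fun q x hx => by
      obtain ⟨S, h1, h2⟩ := hx
      exact ⟨_, by rw [Finset.card_map, h1], hshift q.1 x S h2⟩)
    (fun q x hx => by
      obtain ⟨S, h1, h2⟩ := hx
      rw [hlab q (sh x) _ (by rw [Finset.card_map, h1]) (hshift q.1 x S h2), hlab q x S h1 h2]
      have hne : ((q.2.val + 1 : ℕ) : ZMod p) ≠ 0 := by
        intro h
        rw [ZMod.natCast_eq_zero_iff] at h
        have := Nat.le_of_dvd (by omega) h
        have := q.2.2
        omega
      rw [Finset.sum_map]
      simp only [Equiv.coe_toEmbedding, Equiv.coe_addRight]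
      rw [Finset.sum_add_distrib, Finset.sum_const, h1, nsmul_eq_mul, mul_one, add_div,
        div_self hne])
  refine ⟨x, hx, fun d => ?_⟩
  by_contra hcon
  push Not at hcon
  obtain ⟨l1, l2, h12⟩ := hcon
  obtain ⟨l0, -, hl0⟩ := Finset.exists_max_image Finset.univ (F d x) ⟨0, Finset.mem_univ _⟩
  let S : Finset (ZMod p) := Finset.univ.filter fun l => F d x l = F d x l0
  have hS : IsTop (F d x) S := by
    intro l hl l' hl'
    simp only [S, Finset.mem_filter, Finset.mem_univ, true_and] at hl hl'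
    rw [hl]
    exact lt_of_le_of_ne (hl0 l' (Finset.mem_univ _)) hl'
  have hpos : 0 < S.card := Finset.card_pos.2 ⟨l0, by simp [S]⟩
  have hlt : S.card < p := by
    have h1 : S ≠ Finset.univ := by
      intro h
      have a1 : l1 ∈ S := h ▸ Finset.mem_univ _
      have a2 : l2 ∈ S := h ▸ Finset.mem_univ _
      simp only [S, Finset.mem_filter, Finset.mem_univ, true_and] at a1 a2
      exact h12 (a1.trans a2.symm)
    have := Finset.card_lt_card (Finset.ssubset_univ_iff.2 h1)
    rwa [Finset.card_univ, ZMod.card] at this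
  exact hxO (d, ⟨S.card - 1, by omega⟩) ⟨S, by simp only; omega, hS⟩

/-- the mean position -/
noncomputable def mu {p M : ℕ} [NeZero p] (τ : Fin M → ℕ) (x : VV p M) : ℝ :=
  ∑ i, ∑ l, (τ i : ℝ) * x i l

theorem mu_sh {p M : ℕ} [NeZero p] (τ : Fin M → ℕ) (x : VV p M) : mu τ (sh x) = mu τ x := by
  unfold mu
  refine Finset.sum_congr rfl fun i _ => ?_
  exact (Equiv.subRight (1 : ZMod p)).sum_comp (fun l => (τ i : ℝ) * x i l)

theorem mu_cont {p M : ℕ} [NeZero p] (τ : Fin M → ℕ) : Continuous (mu (p := p) τ) := by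
  unfold mu
  fun_prop

theorem core (p : ℕ) [Fact p.Prime] (M t : ℕ) (hM : (t + 1) * (p - 1) < M) (τ : Fin M → ℕ)
    (col : Fin M → Fin M → Fin t) :
    ∃ k : Fin t, ∃ a b : ZMod p → Fin M, Function.Injective a ∧ Function.Injective b ∧
      (∀ l l', τ (a l) ≤ τ (b l')) ∧ ∀ l, col (a l) (b l) = k := by
  classical
  let T : Fin t → VV p M → ZMod p → Fin M → Fin M → ℝ := fun k x l a b =>
    if col a b = k then
      x a l * x b l * (max 0 (mu τ x - τ a + 1 / 2) * max 0 (τ b + 1 / 2 - mu τ x)) else 0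
  let F : Option (Fin t) → VV p M → ZMod p → ℝ := fun d x l =>
    match d with
    | none => ∑ i, ((τ i : ℝ) - mu τ x) * x i l
    | some k => ∑ a, ∑ b, T k x l a b
  have hmc := mu_cont (p := p) τ
  obtain ⟨x, ⟨hx0, hx1, hx2⟩, hx⟩ := equi_const p M (D := Option (Fin t)) (by simpa using hM) F
    (fun d l => by
      cases d with
      | none =>
        show Continuous fun x : VV p M => ∑ i, ((τ i : ℝ) - mu τ x) * x i l
        fun_prop
      | some k =>
        show Continuous fun x : VV p M => ∑ a, ∑ b, T k x l a b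
        refine continuous_finsetSum _ fun a _ => continuous_finsetSum _ fun b _ => ?_
        by_cases h : col a b = k
        · simp only [T, if_pos h]
          fun_prop
        · simp only [T, if_neg h]
          exact continuous_const)
    (fun d x l => by
      cases d with
      | none =>
        show ∑ i, ((τ i : ℝ) - mu τ (sh x)) * sh x i l = ∑ i, ((τ i : ℝ) - mu τ x) * x i (l - 1)
        rw [mu_sh]
        rfl
      | some k =>
        show ∑ a, ∑ b, T k (sh x) l a b = ∑ a, ∑ b, T k x (l - 1) a b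
        simp only [T, mu_sh]
        rfl)
  have hsum : ∑ l, F none x l = 0 := by
    show ∑ l, ∑ i, ((τ i : ℝ) - mu τ x) * x i l = 0
    rw [Finset.sum_comm]
    simp only [sub_mul, Finset.sum_sub_distrib, ← Finset.mul_sum]
    rw [hx1, mul_one, sub_eq_zero]
    unfold mu
    simp only [Finset.mul_sum]
  have hzero : ∀ l, F none x l = 0 := by
    intro l
    have h1 : ∑ l', F none x l' = ∑ _l' : ZMod p, F none x l :=
      Finset.sum_congr rfl fun l' _ => hx none l' l
    rw [hsum, Finset.sum_const, Finset.card_univ, ZMod.card, nsmul_eq_mul] at h1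
    have hp0 : (p : ℝ) ≠ 0 := by exact_mod_cast (Fact.out : p.Prime).ne_zero
    exact (mul_eq_zero.1 h1.symm).resolve_left hp0
  obtain ⟨i0, l0, h0⟩ : ∃ i l, 0 < x i l := by
    by_contra h
    push Not at h
    have : ∑ i, ∑ l, x i l ≤ 0 :=
      Finset.sum_nonpos fun i _ => Finset.sum_nonpos fun l _ => h i l
    linarith
  obtain ⟨a0, ha0, ha1⟩ : ∃ a, 0 < x a l0 ∧ (τ a : ℝ) ≤ mu τ x := by
    by_contra h
    push Not at h
    have h1 : 0 < ∑ i, ((τ i : ℝ) - mu τ x) * x i l0 := by
      refine Finset.sum_pos' (fun i _ => ?_) ⟨i0, Finset.mem_univ _, ?_⟩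
      · rcases (hx0 i l0).eq_or_lt with h2 | h2
        · rw [← h2, mul_zero]
        · exact mul_nonneg (sub_nonneg.2 (h i h2).le) h2.le
      · exact mul_pos (sub_pos.2 (h i0 h0)) h0
    exact h1.ne' (hzero l0)
  obtain ⟨b0, hb0, hb1⟩ : ∃ b, 0 < x b l0 ∧ mu τ x ≤ (τ b : ℝ) := by
    by_contra h
    push Not at h
    have h1 : 0 < ∑ i, -(((τ i : ℝ) - mu τ x) * x i l0) := by
      refine Finset.sum_pos' (fun i _ => ?_) ⟨i0, Finset.mem_univ _, ?_⟩
      · rcases (hx0 i l0).eq_or_lt with h2 | h2
        · rw [← h2, mul_zero, neg_zero]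
        · have := mul_nonneg (sub_nonneg.2 (h i h2).le) h2.le
          linarith
      · have := mul_pos (sub_pos.2 (h i0 h0)) h0
        linarith
    rw [Finset.sum_neg_distrib] at h1
    have h2 : ∑ i, ((τ i : ℝ) - mu τ x) * x i l0 = 0 := hzero l0
    linarith
  have hT0 : ∀ k l a b, 0 ≤ T k x l a b := by
    intro k l a b
    simp only [T]
    split_ifs
    · exact mul_nonneg (mul_nonneg (hx0 _ _) (hx0 _ _))
        (mul_nonneg (le_max_left _ _) (le_max_left _ _))
    · exact le_rfl
  have hpos0 : 0 < F (some (col a0 b0)) x l0 := by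
    show 0 < ∑ a, ∑ b, T (col a0 b0) x l0 a b
    refine Finset.sum_pos' (fun a _ => Finset.sum_nonneg fun b _ => hT0 _ _ _ _)
      ⟨a0, Finset.mem_univ _, Finset.sum_pos' (fun b _ => hT0 _ _ _ _)
        ⟨b0, Finset.mem_univ _, ?_⟩⟩
    simp only [T, if_true]
    refine mul_pos (mul_pos ha0 hb0) (mul_pos ?_ ?_)
    · exact lt_max_of_lt_right (by linarith)
    · exact lt_max_of_lt_right (by linarith)
  have hex : ∀ l, ∃ a b, col a b = col a0 b0 ∧ 0 < x a l ∧ 0 < x b l ∧
      0 < mu τ x - τ a + 1 / 2 ∧ 0 < τ b + 1 / 2 - mu τ x := by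
    intro l
    have h1 : 0 < ∑ a, ∑ b, T (col a0 b0) x l a b := by
      have := hx (some (col a0 b0)) l0 l
      rw [this] at hpos0
      exact hpos0
    obtain ⟨a, -, h2⟩ := Finset.exists_ne_zero_of_sum_ne_zero h1.ne'
    obtain ⟨b, -, h3⟩ := Finset.exists_ne_zero_of_sum_ne_zero h2
    simp only [T] at h3
    split_ifs at h3 with h4
    · refine ⟨a, b, h4, ?_, ?_, ?_, ?_⟩
      · exact lt_of_le_of_ne (hx0 _ _) fun h => h3 (by rw [← h]; ring)
      · exact lt_of_le_of_ne (hx0 _ _) fun h => h3 (by rw [← h]; ring)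
      · by_contra h
        push Not at h
        exact h3 (by rw [max_eq_left h]; ring)
      · by_contra h
        push Not at h
        exact h3 (by rw [max_eq_left h]; ring)
    · exact absurd rfl h3
  choose a b h1 h2 h3 h4 h5 using hex
  refine ⟨col a0 b0, a, b, fun l l' h => ?_, fun l l' h => ?_, fun l l' => ?_, h1⟩
  · by_contra hne
    rcases hx2 (a l) l l' hne with h6 | h6
    · exact (h2 l).ne' h6
    · rw [h] at h6
      exact (h2 l').ne' h6
  · by_contra hne
    rcases hx2 (b l) l l' hne with h6 | h6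
    · exact (h3 l).ne' h6
    · rw [h] at h6
      exact (h3 l').ne' h6
  · have h6 : (τ (a l) : ℝ) < τ (b l') + 1 := by
      have := h4 l
      have := h5 l'
      linarith
    have h7 : τ (a l) < τ (b l') + 1 := by exact_mod_cast h6
    omega

end Pool.Agent.H892Z.NonSep
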