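import Mathlib
import Pool.Agent.H892Z.NonSepA

/-!
Large matchings in bipartite multigraphs of bounded degree, and the blow-up argument.
-/

set_option autoImplicit false

namespace Pool.Agent.H892Z.NonSep

/-- a bipartite multigraph with degrees at most `j` and more than `j * s` edges has a matching
with `s + 1` edges -/
theorem big_matching {E A B : Type} [Fintype E] [DecidableEq A] [DecidableEq B] (α : E → A)
    (β : E → B) (j s : ℕ) (hα : ∀ v, (Finset.univ.filter fun e => α e = v).card ≤ j)
    (hβ : ∀ v, (Finset.univ.filter fun e => β e = v).card ≤ j) (hE : j * s < Fintype.card E) :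
    ∃ e : Fin (s + 1) → E, Function.Injective (α ∘ e) ∧ Function.Injective (β ∘ e) := by
  classical
  let A0 : Finset A := Finset.univ.image α
  let N : Finset A0 → Finset B := fun S =>
    (Finset.univ.filter fun e => ∃ a ∈ S, α e = a.1).image β
  have hcount : ∀ S : Finset A0, s + 1 + S.card ≤ (N S).card + A0.card := by
    intro S
    have h1 : (Finset.univ.filter fun e => ∃ a ∈ S, α e = a.1).card ≤ j * (N S).card := by
      refine Finset.card_le_mul_card_image _ j fun b _ => ?_
      refine le_trans (Finset.card_le_card ?_) (hβ b)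
      intro e he
      simp only [Finset.mem_filter, Finset.mem_univ, true_and] at he ⊢
      exact he.2
    have h2 : (Finset.univ.filter fun e => ¬ ∃ a ∈ S, α e = a.1).card ≤
        j * (A0 \ S.map (Function.Embedding.subtype _)).card := by
      refine le_trans (Finset.card_le_mul_card_image (f := α) _ j fun b _ => ?_) ?_
      · refine le_trans (Finset.card_le_card ?_) (hα b)
        intro e he
        simp only [Finset.mem_filter, Finset.mem_univ, true_and] at he ⊢
        exact he.2
      · refine Nat.mul_le_mul_left _ (Finset.card_le_card ?_)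
        intro a ha
        rw [Finset.mem_image] at ha
        obtain ⟨e, he, rfl⟩ := ha
        rw [Finset.mem_filter] at he
        rw [Finset.mem_sdiff]
        refine ⟨Finset.mem_image_of_mem _ (Finset.mem_univ _), fun h => he.2 ?_⟩
        rw [Finset.mem_map] at h
        obtain ⟨a, ha, h⟩ := h
        exact ⟨a, ha, h.symm⟩
    have h3 := Finset.card_filter_add_card_filter_not (s := (Finset.univ : Finset E))
      (fun e => ∃ a ∈ S, α e = a.1)
    rw [Finset.card_univ] at h3
    have h4 : S.map (Function.Embedding.subtype _) ⊆ A0 := by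
      intro a ha
      rw [Finset.mem_map] at ha
      obtain ⟨a, -, rfl⟩ := ha
      exact a.2
    have h5 := Finset.card_sdiff_add_card_eq_card h4
    rw [Finset.card_map] at h5
    have h6 : j * s < j * ((N S).card + (A0 \ S.map (Function.Embedding.subtype _)).card) := by
      rw [mul_add]
      omega
    have h7 := Nat.lt_of_mul_lt_mul_left h6
    omega
  have hA : s + 1 ≤ A0.card := by
    have := hcount ∅
    simpa [N] using this
  let d := A0.card - (s + 1)
  let T : A0 → Finset (B ⊕ Fin d) := fun a => (N {a}).disjSum Finset.univ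
  have hall : ∀ S : Finset A0, S.card ≤ (S.biUnion T).card := by
    intro S
    rcases S.eq_empty_or_nonempty with rfl | ⟨a0, ha0⟩
    · simp
    have h1 : (N S).disjSum (Finset.univ : Finset (Fin d)) ⊆ S.biUnion T := by
      intro z hz
      rw [Finset.mem_biUnion]
      rcases z with b | i
      · rw [Finset.inl_mem_disjSum] at hz
        simp only [N, Finset.mem_image, Finset.mem_filter, Finset.mem_univ, true_and] at hz
        obtain ⟨e, ⟨a, ha, he⟩, rfl⟩ := hz
        refine ⟨a, ha, ?_⟩
        simp only [T, Finset.inl_mem_disjSum, N, Finset.mem_image, Finset.mem_filter,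
          Finset.mem_univ, true_and]
        exact ⟨e, ⟨a, Finset.mem_singleton_self _, he⟩, rfl⟩
      · exact ⟨a0, ha0, by simp [T]⟩
    have h2 := Finset.card_le_card h1
    rw [Finset.card_disjSum, Finset.card_univ, Fintype.card_fin] at h2
    have := hcount S
    omega
  obtain ⟨f, hf, hfT⟩ := (Finset.all_card_le_biUnion_card_iff_exists_injective T).1 hall
  let G : Finset A0 := Finset.univ.filter fun a => (f a).isLeft
  have hG : s + 1 ≤ G.card := by
    have h1 : (Finset.univ.filter fun a : A0 => ¬ (f a).isLeft).card ≤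
        ((Finset.univ : Finset (Fin d)).map (Function.Embedding.inr (α := B))).card := by
      refine Finset.card_le_card_of_injOn f (fun a ha => ?_) hf.injOn
      simp only [Finset.coe_filter, Finset.mem_univ, true_and, Set.mem_setOf_eq] at ha
      rcases h : f a with b | i
      · rw [h] at ha
        simp at ha
      · simp
    rw [Finset.card_map, Finset.card_univ, Fintype.card_fin] at h1
    have h3 := Finset.card_filter_add_card_filter_not (s := (Finset.univ : Finset A0))
      (fun a => (f a).isLeft)
    rw [Finset.card_univ, Fintype.card_coe] at h3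
    show s + 1 ≤ (Finset.univ.filter fun a : A0 => (f a).isLeft).card
    omega
  obtain ⟨g, hg⟩ : ∃ g : Fin (s + 1) ↪ A0, ∀ i, g i ∈ G := by
    obtain ⟨g, hg⟩ := Function.Embedding.exists_of_card_le_finset (α := Fin (s + 1)) (s := G)
      (by simpa using hG)
    exact ⟨g, fun i => hg ⟨i, rfl⟩⟩
  have hex : ∀ i, ∃ e, α e = (g i).1 ∧ f (g i) = Sum.inl (β e) := by
    intro i
    have h1 := hg i
    simp only [G, Finset.mem_filter, Finset.mem_univ, true_and] at h1
    have h2 := hfT (g i)
    rcases h : f (g i) with b | k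
    · rw [h] at h2
      simp only [T, Finset.inl_mem_disjSum, N, Finset.mem_image, Finset.mem_filter,
        Finset.mem_univ, true_and, Finset.mem_singleton] at h2
      obtain ⟨e, ⟨a, rfl, he⟩, rfl⟩ := h2
      exact ⟨e, he, rfl⟩
    · rw [h] at h1
      simp at h1
  choose e he1 he2 using hex
  refine ⟨e, fun i i' h => ?_, fun i i' h => ?_⟩
  · apply g.injective
    apply Subtype.ext
    rw [← he1, ← he1]
    exact h
  · apply g.injective
    apply hf
    rw [he2, he2]
    exact congrArg _ h

theorem params (t s : ℕ) : ∃ p j : ℕ, p.Prime ∧ j * s < p ∧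
    (t + 1) * (p - 1) < j * ((t + 1) * s + 1) := by
  rcases Nat.eq_zero_or_pos s with rfl | hs
  · exact ⟨2, t + 2, Nat.prime_two, by omega, by omega⟩
  obtain ⟨p, hp, h1, h2⟩ := Nat.exists_prime_gt_modEq_one 1 hs.ne'
  obtain ⟨j, hj⟩ := (Nat.modEq_iff_dvd' h1.le).1 h2.symm
  have hj0 : 0 < j := by
    rcases Nat.eq_zero_or_pos j with rfl | h
    · omega
    · exact h
  refine ⟨p, j, hp, ?_, ?_⟩
  · rw [mul_comm]
    omega
  · rw [hj]
    nlinarith

/-- the staircase form: rows and columns `0, …, (t+1) s`, cells `(u, v)` with `u ≤ v` coloured -/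
theorem stair (t s : ℕ) (col : Fin ((t + 1) * s + 1) → Fin ((t + 1) * s + 1) → Fin t) :
    ∃ k : Fin t, ∃ a b : Fin (s + 1) → Fin ((t + 1) * s + 1), Function.Injective a ∧
      Function.Injective b ∧ (∀ i i', a i ≤ b i') ∧ ∀ i, col (a i) (b i) = k := by
  classical
  obtain ⟨p, j, hp, h1, h2⟩ := params t s
  haveI : Fact p.Prime := ⟨hp⟩
  let q : Fin (j * ((t + 1) * s + 1)) ≃ Fin j × Fin ((t + 1) * s + 1) := finProdFinEquiv.symm
  obtain ⟨k, a, b, ha, hb, hab, hk⟩ := core p (j * ((t + 1) * s + 1)) t h2
    (fun i => (q i).2.val) (fun i i' => col (q i).2 (q i').2)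
  have hfib : ∀ a : ZMod p → Fin (j * ((t + 1) * s + 1)), Function.Injective a →
      ∀ v, (Finset.univ.filter fun e => (q (a e)).2 = v).card ≤ j := by
    intro a ha v
    have h3 : (Finset.univ.filter fun e => (q (a e)).2 = v).card ≤
        (Finset.univ : Finset (Fin j)).card := by
      refine Finset.card_le_card_of_injOn (fun e => (q (a e)).1) (fun _ _ => by simp) ?_
      intro e he e' he' h
      simp only [Finset.coe_filter, Finset.mem_univ, true_and, Set.mem_setOf_eq] at he he'
      apply ha
      apply q.injective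
      exact Prod.ext h (he.trans he'.symm)
    simpa using h3
  obtain ⟨e, he1, he2⟩ := big_matching (fun l => (q (a l)).2) (fun l => (q (b l)).2) j s
    (hfib a ha) (hfib b hb) (by rwa [ZMod.card])
  exact ⟨k, fun i => (q (a (e i))).2, fun i => (q (b (e i))).2, he1, he2,
    fun i i' => hab (e i) (e i'), fun i => hk (e i)⟩

theorem main (t n : ℕ) (ht : 0 < t) (hn : 0 < n)
    (c : Fin ((t - 1) * (n - 1) + 2 * n) → Fin ((t - 1) * (n - 1) + 2 * n) → Fin t) :
    ∃ k : Fin t, ∃ a b : Fin n → Fin ((t - 1) * (n - 1) + 2 * n),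
      Function.Injective a ∧ Function.Injective b ∧
      (∀ i j, a i < b j) ∧ ∀ i, c (a i) (b i) = k := by
  obtain ⟨s, rfl⟩ : ∃ s, n = s + 1 := ⟨n - 1, by omega⟩
  obtain ⟨r, rfl⟩ : ∃ r, t = r + 1 := ⟨t - 1, by omega⟩
  have hm : (r + 1 - 1) * (s + 1 - 1) + 2 * (s + 1) = (r + 1 + 1) * s + 1 + 1 := by
    simp only [Nat.add_sub_cancel]
    ring
  let L : Fin ((r + 1 + 1) * s + 1) → Fin ((r + 1 - 1) * (s + 1 - 1) + 2 * (s + 1)) :=
    fun u => ⟨u.val, by rw [hm]; omega⟩
  let R : Fin ((r + 1 + 1) * s + 1) → Fin ((r + 1 - 1) * (s + 1 - 1) + 2 * (s + 1)) :=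
    fun u => ⟨u.val + 1, by rw [hm]; omega⟩
  obtain ⟨k, a, b, ha, hb, hab, hk⟩ := stair (r + 1) s fun u v => c (L u) (R v)
  refine ⟨k, fun i => L (a i), fun i => R (b i), fun i i' h => ha ?_, fun i i' h => hb ?_,
    fun i i' => ?_, hk⟩
  · exact Fin.ext (by simpa [L] using h)
  · exact Fin.ext (by simpa [R] using h)
  · have := hab i i'
    show (a i).val < (b i').val + 1
    exact Nat.lt_succ_of_le this

end Pool.Agent.H892Z.NonSep
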